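import Mathlib
import Pool.Agent.Y377.AO.Conn

set_option autoImplicit false

/-!
# Integral points in orbits of groups of matrices on affine varieties

Let `U` be an affine variety over a number field `k`, the zeros in affine `n`-space of finitely many
polynomials `F`. For a field `K ⊇ k`, a group `H`, a representation `ρ : H → GL_r(K)`, an `n × r`
matrix `M` and a vector `v` over `K`, the orbit `Orb M ρ v` is the set of the points `M ρ(h) v`,
`h ∈ H`; we suppose that it lies on `U`.

(1) Suppose that `U` is integral and not dominated by punctured lines (for instance `U` is of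
log-general type and of positive dimension), and let `r` be a natural number. There is a proper
closed subset `Z = U ∩ {G = 0}` of `U`, defined over `k` and depending only on `U` and `r`, such that

* (`DegreeBound`) for ALL groups and representations over number fields `K ⊇ k` of degree at most
  `D` over `ℚ`, at most `∏_{f = 1}^{D} |GL_r(𝔽_{2^f})| |GL_r(𝔽_{3^f})|` points of the orbit are
  outside `Z`;
* (`IntegralBound`) if the entries of the matrices `ρ(h)` are `p`-integral for an odd prime `p`, at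
  most `p ^ ([K : ℚ] r ^ 2)` points of the orbit are outside `Z`;
* (`ResidueBound`) if `ρ` takes values in `GL_r(A)` for a subring `A` (for instance finitely
  generated over `ℤ`) of a field `K ⊇ k`, with homomorphisms to finite fields `F₁`, `F₂` of different
  characteristics, at most `|GL_r(F₁)| |GL_r(F₂)|` points of the orbit are outside `Z`;
* (`FGFinite`) if `H` is finitely generated, `K ⊇ k` any field, so that the orbit consists of
  integral points over a finitely generated ring, then finitely many points of the orbit are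
  outside `Z`.

(2) If `U` is dominated by punctured lines, this fails: for some `r` and every proper closed subset
`G = 0` there is an orbit of an infinite cyclic group over a number field with infinitely many
points outside `G = 0`.

(3) `U` (not necessarily integral) has no nonconstant punctured line over number fields (for
instance since all subvarieties of positive dimension of `U` are of log-general type) if and only if
for all `r` these statements hold with `Z` empty, and if and only if the orbits of infinite cyclic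
groups over number fields on `U` are finite.
-/

namespace Pool.Agent.Results.MP_26d9ad_nt.MatrixGroupOrbits

open MvPolynomial Pool.Agent.Y215.AF Pool.Agent.TH717.GO Pool.Agent.Y377.AO

/-- the orbit: the points `M ρ(h) v`, `h` in the group -/
def Orb {K : Type} [Field K] {n r : ℕ} {H : Type} [Group H] (M : Matrix (Fin n) (Fin r) K)
    (ρ : H →* Matrix.GeneralLinearGroup (Fin r) K) (v : Fin r → K) : Set (Fin n → K) :=
  Set.range fun h : H => M.mulVec ((ρ h : Matrix (Fin r) (Fin r) K).mulVec v)

variable {k : Type} [Field k] {n N : ℕ}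

/-- uniform bound for all groups of `r × r` matrices over number fields of bounded degree -/
def DegreeBound (F : Fin N → MvPolynomial (Fin n) k) (G : MvPolynomial (Fin n) k) (r : ℕ) : Prop :=
  ∀ (D : ℕ) (K : Type) [Field K] [NumberField K] [Algebra k K], Module.finrank ℚ K ≤ D →
    ∀ (H : Type) [Group H] (ρ : H →* Matrix.GeneralLinearGroup (Fin r) K)
      (M : Matrix (Fin n) (Fin r) K) (v : Fin r → K),
      (∀ x ∈ Orb M ρ v, ∀ i, aeval x (F i) = 0) →
      {x | x ∈ Orb M ρ v ∧ aeval x G ≠ 0}.encard ≤ (∏ f ∈ Finset.Icc 1 D,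
        ((∏ i ∈ Finset.range r, ((2 ^ f) ^ r - (2 ^ f) ^ i)) *
          ∏ i ∈ Finset.range r, ((3 ^ f) ^ r - (3 ^ f) ^ i)) : ℕ)

/-- bound for groups of `p`-integral matrices over number fields -/
def IntegralBound (F : Fin N → MvPolynomial (Fin n) k) (G : MvPolynomial (Fin n) k) (r : ℕ) :
    Prop :=
  ∀ (K : Type) [Field K] [NumberField K] [Algebra k K] (H : Type) [Group H]
      (ρ : H →* Matrix.GeneralLinearGroup (Fin r) K) (M : Matrix (Fin n) (Fin r) K)
      (v : Fin r → K), (∀ x ∈ Orb M ρ v, ∀ i, aeval x (F i) = 0) →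
      ∀ p : ℕ, p.Prime → 3 ≤ p →
      (∀ h i j, PInt p ((ρ h : Matrix (Fin r) (Fin r) K) i j)) →
      {x | x ∈ Orb M ρ v ∧ aeval x G ≠ 0}.encard ≤ (p ^ (Module.finrank ℚ K * r ^ 2) : ℕ)

/-- bound for groups of matrices over a ring with two residue fields of different
characteristics -/
def ResidueBound (F : Fin N → MvPolynomial (Fin n) k) (G : MvPolynomial (Fin n) k) (r : ℕ) :
    Prop :=
  ∀ (K : Type) [Field K] [Algebra k K] (A : Subring K) (F₁ F₂ : Type) [Field F₁] [Field F₂]
      [Finite F₁] [Finite F₂] (_ : A →+* F₁) (_ : A →+* F₂), ringChar F₁ ≠ ringChar F₂ →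
    ∀ (H : Type) [Group H] (ρ : H →* Matrix.GeneralLinearGroup (Fin r) A)
      (M : Matrix (Fin n) (Fin r) K) (v : Fin r → K),
      (∀ x ∈ Orb M ((Matrix.GeneralLinearGroup.map A.subtype).comp ρ) v, ∀ i,
        aeval x (F i) = 0) →
      {x | x ∈ Orb M ((Matrix.GeneralLinearGroup.map A.subtype).comp ρ) v ∧
        aeval x G ≠ 0}.encard ≤
          (Nat.card (Matrix.GeneralLinearGroup (Fin r) F₁) *
            Nat.card (Matrix.GeneralLinearGroup (Fin r) F₂) : ℕ)

/-- orbits of finitely generated groups have finitely many points off `G = 0` -/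
def FGFinite (F : Fin N → MvPolynomial (Fin n) k) (G : MvPolynomial (Fin n) k) (r : ℕ) : Prop :=
  ∀ (K : Type) [Field K] [Algebra k K] (H : Type) [Group H], Group.FG H →
    ∀ (ρ : H →* Matrix.GeneralLinearGroup (Fin r) K) (M : Matrix (Fin n) (Fin r) K)
      (v : Fin r → K), (∀ x ∈ Orb M ρ v, ∀ i, aeval x (F i) = 0) →
      {x | x ∈ Orb M ρ v ∧ aeval x G ≠ 0}.Finite

/-- orbits of infinite cyclic groups over number fields have finitely many points off `G = 0` -/
def CyclicFinite (F : Fin N → MvPolynomial (Fin n) k) (G : MvPolynomial (Fin n) k) (r : ℕ) :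
    Prop :=
  ∀ (K : Type) [Field K] [NumberField K] [Algebra k K]
      (ρ : Multiplicative ℤ →* Matrix.GeneralLinearGroup (Fin r) K)
      (M : Matrix (Fin n) (Fin r) K) (v : Fin r → K),
      (∀ x ∈ Orb M ρ v, ∀ i, aeval x (F i) = 0) → {x | x ∈ Orb M ρ v ∧ aeval x G ≠ 0}.Finite

theorem onV_iff {K : Type} [Field K] [Algebra k K] {r : ℕ} {H : Type} [Group H]
    (F : Fin N → MvPolynomial (Fin n) k) (M : Matrix (Fin n) (Fin r) K)
    (ρ : H →* Matrix.GeneralLinearGroup (Fin r) K) (v : Fin r → K) :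
    OnV (Set.range F) M ρ v ↔ ∀ x ∈ Orb M ρ v, ∀ i, aeval x (F i) = 0 := by
  constructor
  · rintro h _ ⟨g, rfl⟩ i
    exact h g _ ⟨i, rfl⟩
  · rintro h g _ ⟨i, rfl⟩
    exact h _ ⟨g, rfl⟩ i

theorem off_eq {K : Type} [Field K] [Algebra k K] {r : ℕ} {H : Type} [Group H]
    (G : MvPolynomial (Fin n) k) (M : Matrix (Fin n) (Fin r) K)
    (ρ : H →* Matrix.GeneralLinearGroup (Fin r) K) (v : Fin r → K) :
    offSet {G} M ρ v = {x | x ∈ Orb M ρ v ∧ aeval x G ≠ 0} := by
  ext x
  constructor
  · rintro ⟨⟨h, rfl⟩, G', hG', hne⟩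
    rw [Set.mem_singleton_iff] at hG'
    subst hG'
    exact ⟨⟨h, rfl⟩, hne⟩
  · rintro ⟨⟨h, rfl⟩, hne⟩
    exact ⟨⟨h, rfl⟩, G, rfl, hne⟩

theorem bounds [NumberField k] (F : Fin N → MvPolynomial (Fin n) k) (G : MvPolynomial (Fin n) k)
    (r : ℕ) (hO : OCond (Set.range F) {G} r) :
    DegreeBound F G r ∧ IntegralBound F G r ∧ ResidueBound F G r ∧ FGFinite F G r := by
  refine ⟨?_, ?_, ?_, ?_⟩
  · intro D K _ _ _ hD H _ ρ M v hX
    rw [← off_eq]
    exact uni_coreA hO (specDeg_of_numberField K D hD) ρ M v ((onV_iff F M ρ v).2 hX)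
  · intro K _ _ _ H _ ρ M v hX p hp hp3 hρ
    rw [← off_eq]
    exact pint_coreA hO p hp hp3 ρ hρ M v ((onV_iff F M ρ v).2 hX)
  · intro K _ _ A F₁ F₂ _ _ _ _ φ₁ φ₂ hne H _ ρ M v hX
    rw [← off_eq]
    exact two_coreA hO A φ₁ φ₂ hne ρ M v ((onV_iff F M _ v).2 hX)
  · intro K _ _ H _ hH ρ M v hX
    have : CharZero K := charZero_of_injective_algebraMap (FaithfulSMul.algebraMap_injective k K)
    rw [← off_eq]
    exact fg_coreA hO hH ρ M v ((onV_iff F M ρ v).2 hX)

theorem result (k : Type) [Field k] [NumberField k] (n N : ℕ)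
    (F : Fin N → MvPolynomial (Fin n) k) :
    ((Ideal.span (Set.range F)).IsPrime → ¬ GmUniruled (Ideal.span (Set.range F)) → ∀ r : ℕ,
      ∃ G : MvPolynomial (Fin n) k, G ∉ Ideal.span (Set.range F) ∧
        DegreeBound F G r ∧ IntegralBound F G r ∧ ResidueBound F G r ∧ FGFinite F G r) ∧
    (GmUniruled (Ideal.span (Set.range F)) → ∃ r : ℕ, ∀ G : MvPolynomial (Fin n) k,
      G ∉ Ideal.span (Set.range F) → ¬ CyclicFinite F G r) ∧
    List.TFAE [NoGmCurve F, ∀ r, DegreeBound F 1 r, ∀ r, IntegralBound F 1 r,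
      ∀ r, ResidueBound F 1 r, ∀ r, FGFinite F 1 r, ∀ r, CyclicFinite F 1 r] := by
  classical
  let d : ℕ := (Finset.univ.sup fun i => (F i).totalDegree) + 1
  have hd : ∀ i, (F i).totalDegree ≤ d := fun i =>
    (Finset.le_sup (f := fun i => (F i).totalDegree) (Finset.mem_univ i)).trans (Nat.le_succ _)
  have hd1 : 1 ≤ d := Nat.succ_le_succ (Nat.zero_le _)
  refine ⟨fun hprime hnu r => ?_, fun hu => ?_, ?_⟩
  · have hF : ∀ p ∈ Set.range F, p.totalDegree ≤ d := by
      rintro _ ⟨i, rfl⟩
      exact hd i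
    obtain ⟨G, hG, hG2⟩ := exists_hyperA (Set.range F) hprime hnu d hd1 hF (r * r)
    have hc : Pool.Agent.Y215.AF.CurCond F d G (r * r) := by
      intro L _ _ c l hz hc
      exact hG2 L c l (by
        rintro _ ⟨i, rfl⟩
        exact hz i) hc
    exact ⟨G, hG, bounds F G r (orb_coreA _ _ r (acond_of_curCond F d hd G (r * r) hc))⟩
  · obtain ⟨r, hr⟩ := conv_orbit F hu
    refine ⟨r, fun G hG hcon => ?_⟩
    obtain ⟨L, iF, iN, iA, ρ, M, v, h1, h2⟩ := hr G hG
    rw [off_eq] at h2
    exact h2 (hcon L ρ M v ((onV_iff F M ρ v).1 h1))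
  · have h1 : NoGmCurve F → ∀ r, DegreeBound F 1 r ∧ IntegralBound F 1 r ∧ ResidueBound F 1 r ∧
        FGFinite F 1 r := fun h r =>
      bounds F 1 r (orb_coreA _ _ r (acond_of_curCond F d hd 1 (r * r) (curCond_one F d hd h _)))
    tfae_have 1 → 2 := fun h r => (h1 h r).1
    tfae_have 1 → 3 := fun h r => (h1 h r).2.1
    tfae_have 1 → 4 := fun h r => (h1 h r).2.2.1
    tfae_have 4 → 5 := by
      intro hres r K _ _ H _ hH ρ M v hX
      have hK0 : CharZero K :=
        charZero_of_injective_algebraMap (FaithfulSMul.algebraMap_injective k K)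
      obtain ⟨S, hS⟩ := fg_subring hH ρ
      obtain ⟨N, hN, hp⟩ := exists_residue_closure S
      obtain ⟨p₁, hp₁N, hp₁⟩ := Nat.exists_infinite_primes (N + 1)
      obtain ⟨p₂, hp₂N, hp₂⟩ := Nat.exists_infinite_primes (p₁ + 1)
      have hnd : ∀ p, N + 1 ≤ p → ¬ p ∣ N := fun p hp h => by
        have := Nat.le_of_dvd (Nat.pos_of_ne_zero hN) h
        omega
      obtain ⟨F₁, i1, f1, hc1, ⟨φ₁⟩⟩ := hp p₁ hp₁ (hnd p₁ hp₁N)
      obtain ⟨F₂, i2, f2, hc2, ⟨φ₂⟩⟩ := hp p₂ hp₂ (hnd p₂ (by omega))
      have he : (Matrix.GeneralLinearGroup.map (Subring.closure (S : Set K)).subtype).comp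
          (toSub _ ρ hS) = ρ := ext_toSub _ ρ hS
      have h2 := hres r K (Subring.closure (S : Set K)) F₁ F₂ φ₁ φ₂ (by
        rw [hc1, hc2]
        omega) H (toSub _ ρ hS) M v (by rwa [he])
      rw [he] at h2
      exact Set.finite_of_encard_le_coe h2
    tfae_have 5 → 6 := by
      intro hfg r K _ _ _ ρ M v hX
      exact hfg r K (Multiplicative ℤ) inferInstance ρ M v hX
    tfae_have 2 → 6 := by
      intro hb r K _ _ _ ρ M v hX
      exact Set.finite_of_encard_le_coe (hb r _ K le_rfl (Multiplicative ℤ) ρ M v hX)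
    tfae_have 3 → 6 := by
      intro hb r K _ _ _ ρ M v hX
      obtain ⟨p, hp, hp3, hρ⟩ := exists_prime_of_fg (inferInstance : Group.FG (Multiplicative ℤ)) ρ
      exact Set.finite_of_encard_le_coe (hb r K (Multiplicative ℤ) ρ M v hX p hp hp3 hρ)
    tfae_have 6 → 1 := by
      intro hcyc
      by_contra hno
      obtain ⟨r, L, iF, iN, iA, ρ, M, v, h2, h3⟩ := conv_noGm F hno
      rw [off_eq] at h3
      exact h3 (hcyc r L ρ M v ((onV_iff F M ρ v).1 h2))
    tfae_finish

end Pool.Agent.Results.MP_26d9ad_nt.MatrixGroupOrbits
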